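import Pool.Agent.H31.PT.M15
import Pool.Agent.H31.PT.M16

/-!
# Sums over edges of the torus by distance
-/

open MeasureTheory ProbabilityTheory unitInterval

namespace Pool.Agent.H90.AL

open Pool.Agent.H89.Perc Pool.Agent.H61.NC

/-- The position of an edge relative to `c`. -/
def rel (N : ℕ) (c : Vert) (g : Edge) : Edge := ((g.1 - c.1).bmod N, (g.2.1 - c.2).bmod N, g.2.2)

lemma bmod_inj {N : ℕ} {x y z : ℤ} (hx : 0 ≤ x) (hx' : x < N) (hy : 0 ≤ y) (hy' : y < N)
    (h : (x - z).bmod N = (y - z).bmod N) : x = y := by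
  have h1 := Int.bmod_add_bdiv (x - z) N
  have h2 := Int.bmod_add_bdiv (y - z) N
  rw [h] at h1
  have h3 : (N : ℤ) ∣ x - y := ⟨(x - z).bdiv N - (y - z).bdiv N, by rw [mul_sub]; linarith⟩
  have h4 : |x - y| < N := by
    rw [abs_lt]
    constructor <;> omega
  have h5 := Int.eq_zero_of_abs_lt_dvd h3 h4
  omega

lemma rel_injOn (N : ℕ) (c : Vert) : Set.InjOn (rel N c) (tEdges N) := by
  rintro ⟨x, y, d⟩ hf ⟨x', y', d'⟩ hf' h
  rw [Finset.mem_coe, mem_tEdges_iff] at hf hf'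
  simp only at hf hf'
  simp only [rel, Prod.mk.injEq] at h
  obtain ⟨h1, h2, h3⟩ := h
  rw [bmod_inj hf.1.1 hf.1.2 hf'.1.1 hf'.1.2 h1, bmod_inj hf.2.1 hf.2.2 hf'.2.1 hf'.2.2 h2, h3]

/-- Number of edges of the torus at a given distance from a vertex. -/
theorem card_dT (N t : ℕ) (c : Vert) :
    (((tEdges N).filter fun f => dT N (src f) c = t).card : ℝ) ≤ 16 * ((t : ℝ) + 1) := by
  classical
  have himg : ((tEdges N).filter fun f => dT N (src f) c = t).card =
      (((tEdges N).filter fun f => dT N (src f) c = t).image (rel N c)).card := by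
    rw [Finset.card_image_of_injOn]
    exact (rel_injOn N c).mono (fun f hf => (Finset.mem_filter.1 hf).1)
  rcases Nat.eq_zero_or_pos t with ht | ht
  · subst ht
    have hsub : ((tEdges N).filter fun f => dT N (src f) c = 0).image (rel N c) ⊆
        eRect (0 - (0 : ℕ)) (0 + (0 : ℕ)) (0 - (0 : ℕ)) (0 + (0 : ℕ)) := by
      intro g hg
      rw [Finset.mem_image] at hg
      obtain ⟨f, hf, rfl⟩ := hg
      have h1 := (Finset.mem_filter.1 hf).2
      rw [mem_eRect]
      unfold dT dZ at h1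
      simp only [src] at h1
      simp only [src, rel, rect, Set.mem_ofPred_eq]
      omega
    have h1 := Finset.card_le_card hsub
    rw [Sum_card_eRect] at h1
    rw [himg]
    have h2 : (((((tEdges N).filter fun f => dT N (src f) c = 0).image (rel N c)).card : ℕ) : ℝ) ≤
        ((2 * (2 * 0 + 1) ^ 2 : ℕ) : ℝ) := by exact_mod_cast h1
    refine h2.trans ?_
    norm_num
  · obtain ⟨s, rfl⟩ : ∃ s, t = s + 1 := ⟨t - 1, by omega⟩
    have hsub : ((tEdges N).filter fun f => dT N (src f) c = s + 1).image (rel N c) ⊆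
        eRect (0 - (s + 1 : ℕ)) (0 + (s + 1 : ℕ)) (0 - (s + 1 : ℕ))
          (0 + (s + 1 : ℕ)) \ eRect (0 - s) (0 + s) (0 - s) (0 + s) := by
      intro g hg
      rw [Finset.mem_image] at hg
      obtain ⟨f, hf, rfl⟩ := hg
      have h1 := (Finset.mem_filter.1 hf).2
      unfold dT dZ at h1
      simp only [src] at h1
      rw [Finset.mem_sdiff, mem_eRect, mem_eRect]
      simp only [src, rel, rect, Set.mem_ofPred_eq]
      omega
    have hsub2 : eRect (0 - (s : ℤ)) (0 + s) (0 - s) (0 + s) ⊆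
        eRect (0 - (s + 1 : ℕ)) (0 + (s + 1 : ℕ)) (0 - (s + 1 : ℕ)) (0 + (s + 1 : ℕ)) := by
      intro f hf
      rw [mem_eRect] at hf ⊢
      unfold src rect at hf ⊢
      simp only [Set.mem_ofPred_eq] at hf ⊢
      omega
    have h1 := Finset.card_le_card hsub
    rw [Finset.card_sdiff_of_subset hsub2, Sum_card_eRect, Sum_card_eRect] at h1
    have h2 : 2 * (2 * (s + 1) + 1) ^ 2 - 2 * (2 * s + 1) ^ 2 = 16 * (s + 1) := by
      have : 2 * (2 * (s + 1) + 1) ^ 2 = 2 * (2 * s + 1) ^ 2 + 16 * (s + 1) := by ring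
      omega
    rw [h2] at h1
    rw [himg]
    have h3 : (((((tEdges N).filter fun f => dT N (src f) c = s + 1).image (rel N c)).card : ℕ) : ℝ)
        ≤ ((16 * (s + 1) : ℕ) : ℝ) := by exact_mod_cast h1
    refine h3.trans ?_
    push_cast
    linarith

/-- Sum over the edges by distance to `c`. -/
theorem sum_by_dT {N : ℕ} (hN : 1 ≤ N) (c : Vert) (h : ℕ → ℝ) (hh : ∀ t, 0 ≤ h t) :
    ∑ f ∈ tEdges N, h (dT N (src f) c) ≤ ∑ t ∈ Finset.range (N + 1), 16 * ((t : ℝ) + 1) * h t := by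
  classical
  have hmaps : ∀ f ∈ tEdges N, dT N (src f) c ∈ Finset.range (N + 1) := by
    intro f _
    have := dT_le_half hN (src f) c
    rw [Finset.mem_range]
    omega
  rw [← Finset.sum_fiberwise_of_maps_to hmaps]
  refine Finset.sum_le_sum fun t _ => ?_
  have h1 : ∑ f ∈ (tEdges N).filter (fun f => dT N (src f) c = t), h (dT N (src f) c) =
      ((tEdges N).filter (fun f => dT N (src f) c = t)).card * h t := by
    rw [← nsmul_eq_mul]
    refine Finset.sum_eq_card_nsmul fun f hf => ?_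
    rw [(Finset.mem_filter.1 hf).2]
  rw [h1]
  exact mul_le_mul_of_nonneg_right (card_dT N t c) (hh t)

/-- Sums of powers. -/
theorem sum_pow_le {δ : ℝ} (h0 : 0 < δ) (h1 : δ ≤ 1) (n : ℕ) :
    ∑ t ∈ Finset.range n, ((t : ℝ) + 1) ^ (δ - 1) ≤ (n : ℝ) ^ δ / δ := by
  have h := Sum_rpow δ h0 h1 n
  have e : ∑ t ∈ Finset.range n, ((t : ℝ) + 1) ^ (δ - 1) =
      ∑ t ∈ Finset.Icc 1 n, (t : ℝ) ^ (δ - 1) := by
    rw [Finset.range_eq_Ico, Finset.sum_Ico_eq_sum_range]
    have e2 : Finset.Icc 1 n = Finset.Ico 1 (n + 1) := by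
      ext x
      simp [Nat.lt_succ_iff]
    rw [e2, Finset.sum_Ico_eq_sum_range]
    simp only [Nat.sub_zero, Nat.add_sub_cancel, zero_add]
    refine Finset.sum_congr rfl fun i _ => ?_
    push_cast
    rw [add_comm]
  rw [e]
  exact h

/-- The weight of a pair of distances. -/
noncomputable def G (s : ℝ) (x y : ℕ) : ℝ :=
  if x ≤ y then ((x : ℝ) + 1) ^ (-s) * (((y : ℝ) + 1) ^ (-s) * ((y : ℝ) + 1) ^ (-s)) else 0

lemma G_nonneg (s : ℝ) (x y : ℕ) : 0 ≤ G s x y := by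
  unfold G
  split_ifs
  · positivity
  · exact le_rfl

theorem sum_G {s : ℝ} (h1 : 1 < s) (h2 : s < 4 / 3) {N : ℕ} (hN : 1 ≤ N) :
    ∑ y ∈ Finset.range (N + 1), 16 * ((y : ℝ) + 1) *
      ∑ x ∈ Finset.range (N + 1), 16 * ((x : ℝ) + 1) * G s x y ≤
      512 / ((2 - s) * (4 - 3 * s)) * (N : ℝ) ^ (4 - 3 * s) := by
  have hs2 : 0 < 2 - s := by linarith
  have hs4 : 0 < 4 - 3 * s := by linarith
  have inner : ∀ y ∈ Finset.range (N + 1), 16 * ((y : ℝ) + 1) *
      ∑ x ∈ Finset.range (N + 1), 16 * ((x : ℝ) + 1) * G s x y ≤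
      256 / (2 - s) * ((y : ℝ) + 1) ^ ((4 - 3 * s) - 1) := by
    intro y hy
    have hy1 : y < N + 1 := Finset.mem_range.1 hy
    have hy0 : (0 : ℝ) < (y : ℝ) + 1 := by positivity
    obtain ⟨Y, hY⟩ : ∃ Y : ℝ, Y = ((y : ℝ) + 1) ^ (-s) * ((y : ℝ) + 1) ^ (-s) := ⟨_, rfl⟩
    have hY0 : 0 < Y := by rw [hY]; positivity
    have e1 : ∑ x ∈ Finset.range (N + 1), 16 * ((x : ℝ) + 1) * G s x y =
        ∑ x ∈ Finset.range (y + 1), 16 * ((x : ℝ) + 1) * G s x y := by
      symm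
      refine Finset.sum_subset (Finset.range_subset_range.2 (by omega)) fun x _ hx => ?_
      rw [Finset.mem_range, not_lt] at hx
      unfold G
      rw [if_neg (by omega), mul_zero]
    have e2 : ∑ x ∈ Finset.range (y + 1), 16 * ((x : ℝ) + 1) * G s x y =
        16 * Y * ∑ x ∈ Finset.range (y + 1), ((x : ℝ) + 1) ^ ((2 - s) - 1) := by
      rw [Finset.mul_sum]
      refine Finset.sum_congr rfl fun x hx => ?_
      rw [Finset.mem_range] at hx
      have hx0 : (0 : ℝ) < (x : ℝ) + 1 := by positivity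
      unfold G
      rw [if_pos (by omega), hY]
      have e3 : ((x : ℝ) + 1) ^ ((2 - s) - 1) = ((x : ℝ) + 1) * ((x : ℝ) + 1) ^ (-s) := by
        nth_rewrite 2 [← Real.rpow_one ((x : ℝ) + 1)]
        rw [← Real.rpow_add hx0]
        congr 1
        ring
      rw [e3]
      ring
    have h3 := sum_pow_le hs2 (by linarith) (y + 1)
    rw [e1, e2]
    have h4 : 16 * ((y : ℝ) + 1) * (16 * Y * ∑ x ∈ Finset.range (y + 1), ((x : ℝ) + 1) ^ ((2 - s) - 1))
        ≤ 16 * ((y : ℝ) + 1) * (16 * Y * (((y + 1 : ℕ) : ℝ) ^ (2 - s) / (2 - s))) := by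
      gcongr
    refine h4.trans (le_of_eq ?_)
    have e4 : ((y : ℝ) + 1) ^ ((4 - 3 * s) - 1) =
        ((y : ℝ) + 1) * (((y : ℝ) + 1) ^ (-s) * ((y : ℝ) + 1) ^ (-s)) * ((y : ℝ) + 1) ^ (2 - s) := by
      nth_rewrite 2 [← Real.rpow_one ((y : ℝ) + 1)]
      rw [← Real.rpow_add hy0, ← Real.rpow_add hy0, ← Real.rpow_add hy0]
      congr 1
      ring
    rw [e4, hY]
    push_cast
    field_simp
    ring
  calc _ ≤ ∑ y ∈ Finset.range (N + 1), 256 / (2 - s) * ((y : ℝ) + 1) ^ ((4 - 3 * s) - 1) :=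
        Finset.sum_le_sum inner
    _ = 256 / (2 - s) * ∑ y ∈ Finset.range (N + 1), ((y : ℝ) + 1) ^ ((4 - 3 * s) - 1) := by
        rw [Finset.mul_sum]
    _ ≤ 256 / (2 - s) * (((N + 1 : ℕ) : ℝ) ^ (4 - 3 * s) / (4 - 3 * s)) := by
        gcongr
        exact sum_pow_le hs4 (by linarith) (N + 1)
    _ ≤ 256 / (2 - s) * ((2 * (N : ℝ) ^ (4 - 3 * s)) / (4 - 3 * s)) := by
        have h5 : ((N + 1 : ℕ) : ℝ) ^ (4 - 3 * s) ≤ 2 * (N : ℝ) ^ (4 - 3 * s) := by
          have hN0 : (0 : ℝ) ≤ N := Nat.cast_nonneg N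
          have hN1 : (1 : ℝ) ≤ N := by exact_mod_cast hN
          calc ((N + 1 : ℕ) : ℝ) ^ (4 - 3 * s) ≤ (2 * (N : ℝ)) ^ (4 - 3 * s) := by
                refine Real.rpow_le_rpow (by positivity) ?_ hs4.le
                push_cast
                linarith
            _ = 2 ^ (4 - 3 * s) * (N : ℝ) ^ (4 - 3 * s) := Real.mul_rpow (by norm_num) hN0
            _ ≤ 2 * (N : ℝ) ^ (4 - 3 * s) := by
                refine mul_le_mul_of_nonneg_right ?_ (by positivity)
                calc (2 : ℝ) ^ (4 - 3 * s) ≤ 2 ^ (1 : ℝ) :=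
                      Real.rpow_le_rpow_of_exponent_le (by norm_num) (by linarith)
                  _ = 2 := Real.rpow_one 2
        gcongr
    _ = _ := by
        field_simp
        ring

end Pool.Agent.H90.AL
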